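import Pool.Agent.V7H31.IG.Gam

/-!
# Hurwitz zeta values at rational numbers of denominator `1, 2, 3, 4, 6`
-/

set_option autoImplicit false

open Filter Topology Set

namespace Pool.Agent.V7H31.IG

open Pool.Agent.R352.E (clF subset_clF of_pow rat_mem zt zt_even)

/-- splitting by residue classes -/
lemma split_sum (N : ℕ) (hN : 0 < N) {k : ℕ} (F : ℕ → ℝ) (hF : ∀ n, F (n + N) = F n)
    (hs : Summable (fun n : ℕ => F (n + 1) / ((n : ℝ) + 1) ^ k)) :
    ∑' n : ℕ, F (n + 1) / ((n : ℝ) + 1) ^ k =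
      ∑ j ∈ Finset.range N, F (j + 1) * (1 / (N : ℝ) ^ k * hz k (((j : ℝ) + 1) / N)) := by
  obtain ⟨M, rfl⟩ : ∃ M, N = M + 1 := ⟨N - 1, by omega⟩
  have hper : ∀ a m : ℕ, F (a + (M + 1) * m) = F a := by
    intro a m
    induction m with
    | zero => simp
    | succ m ih => rw [Nat.mul_succ, ← add_assoc, hF, ih]
  rw [Nat.sumByResidueClasses hs (M + 1), Finset.sum_range]
  have h1 : ∀ j : ℕ, ∑' m : ℕ, F (j + (M + 1) * m + 1) / (((j + (M + 1) * m : ℕ) : ℝ) + 1) ^ k =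
      F (j + 1) * (1 / ((M + 1 : ℕ) : ℝ) ^ k * hz k (((j : ℝ) + 1) / ((M + 1 : ℕ) : ℝ))) := by
    intro j
    rw [hz, ← tsum_mul_left, ← tsum_mul_left]
    refine tsum_congr fun m => ?_
    have e1 : j + (M + 1) * m + 1 = (j + 1) + (M + 1) * m := by ring
    rw [e1, hper, one_div_mul_one_div, ← mul_pow, mul_one_div]
    have h2 : ((M + 1 : ℕ) : ℝ) ≠ 0 := by positivity
    congr 2
    push_cast at h2 ⊢
    field_simp
    ring
  exact Finset.sum_congr rfl fun j _ => h1 (ZMod.val j)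

lemma dist (N : ℕ) (hN : 0 < N) {k : ℕ} (hk : 2 ≤ k) :
    (N : ℝ) ^ k * zt k = ∑ j ∈ Finset.range N, hz k (((j : ℝ) + 1) / N) := by
  have hs : Summable (fun n : ℕ => (1 : ℝ) / ((n : ℝ) + 1) ^ k) := hz_summable hk one_pos
  have h := split_sum N hN (k := k) (fun _ => 1) (fun _ => rfl) hs
  rw [zt, h, Finset.mul_sum]
  refine Finset.sum_congr rfl fun j _ => ?_
  have : (N : ℝ) ^ k ≠ 0 := by positivity
  field_simp

/-- the sine series -/
lemma sin_mem {T : Set ℝ} (hpi : Real.pi ∈ clF T) {k : ℕ} (hk : k ≠ 0) (x : ℚ) (hx : (x : ℝ) ∈ Icc (0 : ℝ) 1) :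
    Summable (fun n : ℕ => Real.sin (2 * Real.pi * ((n + 1 : ℕ) : ℝ) * x) / ((n : ℝ) + 1) ^ (2 * k + 1)) ∧
    ∑' n : ℕ, Real.sin (2 * Real.pi * ((n + 1 : ℕ) : ℝ) * x) / ((n : ℝ) + 1) ^ (2 * k + 1) ∈ clF T := by
  have h1 := hasSum_one_div_nat_pow_mul_sin hk hx
  have hs := h1.summable
  have hs1 := (summable_nat_add_iff 1).2 hs
  have e : ∀ n : ℕ, 1 / ((n + 1 : ℕ) : ℝ) ^ (2 * k + 1) * Real.sin (2 * Real.pi * ((n + 1 : ℕ) : ℝ) * x) =
      Real.sin (2 * Real.pi * ((n + 1 : ℕ) : ℝ) * x) / ((n : ℝ) + 1) ^ (2 * k + 1) := by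
    intro n
    push_cast
    ring
  refine ⟨hs1.congr e, ?_⟩
  have h2 : ∑' n : ℕ, Real.sin (2 * Real.pi * ((n + 1 : ℕ) : ℝ) * x) / ((n : ℝ) + 1) ^ (2 * k + 1) =
      ((-1 : ℝ) ^ (k + 1) * (2 * Real.pi) ^ (2 * k + 1) / 2 / (2 * k + 1).factorial *
        (Polynomial.map (algebraMap ℚ ℝ) (Polynomial.bernoulli (2 * k + 1))).eval (x : ℝ)) := by
    rw [← h1.tsum_eq, hs.tsum_eq_zero_add]
    have h0 : 1 / ((0 : ℕ) : ℝ) ^ (2 * k + 1) * Real.sin (2 * Real.pi * ((0 : ℕ) : ℝ) * x) = 0 := by simp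
    rw [h0, zero_add]
    exact tsum_congr fun n => (e n).symm
  rw [h2]
  have h3 : (Polynomial.map (algebraMap ℚ ℝ) (Polynomial.bernoulli (2 * k + 1))).eval (x : ℝ) =
      (((Polynomial.bernoulli (2 * k + 1)).eval x : ℚ) : ℝ) := by
    rw [Polynomial.eval_map]
    exact Polynomial.eval₂_at_apply (algebraMap ℚ ℝ) x
  rw [h3]
  have h4 : (2 : ℝ) ∈ clF T := by exact_mod_cast natCast_mem (clF T) 2
  exact (clF T).mul_mem ((clF T).div_mem ((clF T).div_mem ((clF T).mul_mem ((clF T).pow_mem ((clF T).neg_mem (clF T).one_mem) _)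
    ((clF T).pow_mem ((clF T).mul_mem h4 hpi) _)) h4) (natCast_mem (clF T) _)) (rat_mem T _)

lemma sin_sum {T : Set ℝ} (hpi : Real.pi ∈ clF T) {k : ℕ} (hk : k ≠ 0) (N : ℕ) (hN : 0 < N) :
    ∑ j ∈ Finset.range N, Real.sin (2 * Real.pi * ((j + 1 : ℕ) : ℝ) / N) *
      hz (2 * k + 1) (((j : ℝ) + 1) / N) ∈ clF T := by
  have hN' : (0 : ℝ) < N := by exact_mod_cast hN
  have hN1 : (1 : ℝ) ≤ N := by exact_mod_cast hN
  have h1 := sin_mem hpi hk (1 / (N : ℚ)) (by
    push_cast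
    exact ⟨by positivity, by rw [div_le_one hN']; exact hN1⟩)
  have e1 : ∀ n : ℕ, Real.sin (2 * Real.pi * ((n : ℕ) : ℝ) * ((1 / (N : ℚ) : ℚ) : ℝ)) =
      Real.sin (2 * Real.pi * ((n : ℕ) : ℝ) / N) := by
    intro n
    push_cast
    congr 1
    ring
  simp only [e1] at h1
  have h2 := split_sum N hN (k := 2 * k + 1) (fun n => Real.sin (2 * Real.pi * ((n : ℕ) : ℝ) / N)) (fun n => by
    have : 2 * Real.pi * ((n + N : ℕ) : ℝ) / N = 2 * Real.pi * ((n : ℕ) : ℝ) / N + 2 * Real.pi := by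
      push_cast
      field_simp
    simp only [this, Real.sin_add_two_pi]) h1.1
  have h3 := h1.2
  rw [h2] at h3
  have h4 : ∑ j ∈ Finset.range N, Real.sin (2 * Real.pi * ((j + 1 : ℕ) : ℝ) / N) *
      hz (2 * k + 1) (((j : ℝ) + 1) / N) = (N : ℝ) ^ (2 * k + 1) *
      ∑ j ∈ Finset.range N, Real.sin (2 * Real.pi * ((j + 1 : ℕ) : ℝ) / N) *
        (1 / (N : ℝ) ^ (2 * k + 1) * hz (2 * k + 1) (((j : ℝ) + 1) / N)) := by
    rw [Finset.mul_sum]
    refine Finset.sum_congr rfl fun j _ => ?_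
    field_simp
  rw [h4]
  exact (clF T).mul_mem ((clF T).pow_mem (natCast_mem (clF T) _) _) h3

lemma half_sum {T : Set ℝ} {a b : ℝ} (h1 : a + b ∈ clF T) (h2 : a - b ∈ clF T) : a ∈ clF T ∧ b ∈ clF T := by
  have h4 : (2 : ℝ) ∈ clF T := by exact_mod_cast natCast_mem (clF T) 2
  have e1 : a = ((a + b) + (a - b)) / 2 := by ring
  have e2 : b = ((a + b) - (a - b)) / 2 := by ring
  refine ⟨?_, ?_⟩
  · rw [e1]; exact (clF T).div_mem ((clF T).add_mem h1 h2) h4
  · rw [e2]; exact (clF T).div_mem ((clF T).sub_mem h1 h2) h4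

lemma sq3_mem (T : Set ℝ) : Real.sqrt 3 / 2 ∈ clF T := by
  have h4 : (2 : ℝ) ∈ clF T := by exact_mod_cast natCast_mem (clF T) 2
  refine (clF T).div_mem (of_pow (n := 2) two_ne_zero ?_) h4
  rw [Real.sq_sqrt (by norm_num)]
  exact_mod_cast natCast_mem (clF T) 3

lemma cancel_mem {T : Set ℝ} {c a : ℝ} (hc : c ∈ clF T) (hc0 : c ≠ 0) (h : c * a ∈ clF T) : a ∈ clF T := by
  have : a = (c * a) / c := by field_simp
  rw [this]
  exact (clF T).div_mem h hc

lemma sin_a (c : ℝ) (h : c = Real.pi - Real.pi / 3) : Real.sin c = Real.sqrt 3 / 2 := by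
  rw [h, Real.sin_pi_sub, Real.sin_pi_div_three]

lemma sin_b (c : ℝ) (h : c = Real.pi / 3 + Real.pi) : Real.sin c = -(Real.sqrt 3 / 2) := by
  rw [h, Real.sin_add_pi, Real.sin_pi_div_three]

lemma sin_c (c : ℝ) (h : c = Real.pi / 3) : Real.sin c = Real.sqrt 3 / 2 := by
  rw [h, Real.sin_pi_div_three]

lemma sin_d (c : ℝ) (h : c = 2 * Real.pi - Real.pi / 3) : Real.sin c = -(Real.sqrt 3 / 2) := by
  rw [h, Real.sin_two_pi_sub, Real.sin_pi_div_three]

lemma sin_e (c : ℝ) (h : c = Real.pi / 2) : Real.sin c = 1 := by rw [h, Real.sin_pi_div_two]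

lemma sin_f (c : ℝ) (h : c = Real.pi / 2 + Real.pi) : Real.sin c = -1 := by
  rw [h, Real.sin_add_pi, Real.sin_pi_div_two]

lemma sin_g (c : ℝ) (h : c = Real.pi) : Real.sin c = 0 := by rw [h, Real.sin_pi]

lemma sin_h (c : ℝ) (h : c = 2 * Real.pi) : Real.sin c = 0 := by rw [h, Real.sin_two_pi]

section

variable {T : Set ℝ} (hpi : Real.pi ∈ clF T) {k : ℕ} (hk : k ≠ 0) (hz' : zt (2 * k + 1) ∈ clF T)

include hpi hk hz'

lemma third_mem : hz (2 * k + 1) (1 / 3) ∈ clF T ∧ hz (2 * k + 1) (2 / 3) ∈ clF T := by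
  have hsum : hz (2 * k + 1) (1 / 3) + hz (2 * k + 1) (2 / 3) ∈ clF T := by
    have h := dist 3 (by norm_num) (k := 2 * k + 1) (by omega)
    simp only [Finset.sum_range_succ, Finset.sum_range_zero] at h
    norm_num at h
    rw [hz_one] at h
    have h2 : hz (2 * k + 1) (1 / 3) + hz (2 * k + 1) (2 / 3) = 3 ^ (2 * k + 1) * zt (2 * k + 1) - zt (2 * k + 1) := by
      linarith
    rw [h2]
    have h3 : (3 : ℝ) ∈ clF T := by exact_mod_cast natCast_mem (clF T) 3
    exact (clF T).sub_mem ((clF T).mul_mem ((clF T).pow_mem h3 _) hz') hz'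
  have hdiff : hz (2 * k + 1) (1 / 3) - hz (2 * k + 1) (2 / 3) ∈ clF T := by
    have h := sin_sum hpi hk 3 (by norm_num)
    simp only [Finset.sum_range_succ, Finset.sum_range_zero] at h
    rw [sin_a (2 * Real.pi * ((0 + 1 : ℕ) : ℝ) / (3 : ℕ)) (by push_cast; ring),
      sin_b (2 * Real.pi * ((1 + 1 : ℕ) : ℝ) / (3 : ℕ)) (by push_cast; ring),
      sin_h (2 * Real.pi * ((2 + 1 : ℕ) : ℝ) / (3 : ℕ)) (by push_cast; ring)] at h
    refine cancel_mem (sq3_mem T) (by positivity) ?_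
    convert h using 1
    norm_num
    ring
  exact half_sum hsum hdiff

lemma quarter_mem : hz (2 * k + 1) (1 / 4) ∈ clF T ∧ hz (2 * k + 1) (3 / 4) ∈ clF T := by
  have h2' : (2 : ℝ) ∈ clF T := by exact_mod_cast natCast_mem (clF T) 2
  have hsum : hz (2 * k + 1) (1 / 4) + hz (2 * k + 1) (3 / 4) ∈ clF T := by
    have h := dist 4 (by norm_num) (k := 2 * k + 1) (by omega)
    simp only [Finset.sum_range_succ, Finset.sum_range_zero] at h
    norm_num at h
    rw [hz_one, hz_half (by omega)] at h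
    have h2 : hz (2 * k + 1) (1 / 4) + hz (2 * k + 1) (3 / 4) = 4 ^ (2 * k + 1) * zt (2 * k + 1)
        - (2 ^ (2 * k + 1) - 1) * zt (2 * k + 1) - zt (2 * k + 1) := by
      linarith
    rw [h2]
    have h3 : (4 : ℝ) ∈ clF T := by exact_mod_cast natCast_mem (clF T) 4
    exact (clF T).sub_mem ((clF T).sub_mem ((clF T).mul_mem ((clF T).pow_mem h3 _) hz')
      ((clF T).mul_mem ((clF T).sub_mem ((clF T).pow_mem h2' _) (clF T).one_mem) hz')) hz'
  have hdiff : hz (2 * k + 1) (1 / 4) - hz (2 * k + 1) (3 / 4) ∈ clF T := by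
    have h := sin_sum hpi hk 4 (by norm_num)
    simp only [Finset.sum_range_succ, Finset.sum_range_zero] at h
    rw [sin_e (2 * Real.pi * ((0 + 1 : ℕ) : ℝ) / (4 : ℕ)) (by push_cast; ring),
      sin_g (2 * Real.pi * ((1 + 1 : ℕ) : ℝ) / (4 : ℕ)) (by push_cast; ring),
      sin_f (2 * Real.pi * ((2 + 1 : ℕ) : ℝ) / (4 : ℕ)) (by push_cast; ring),
      sin_h (2 * Real.pi * ((3 + 1 : ℕ) : ℝ) / (4 : ℕ)) (by push_cast; ring)] at h
    convert h using 1
    norm_num
    ring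
  exact half_sum hsum hdiff

lemma sixth_mem : hz (2 * k + 1) (1 / 6) ∈ clF T ∧ hz (2 * k + 1) (5 / 6) ∈ clF T := by
  have h2' : (2 : ℝ) ∈ clF T := by exact_mod_cast natCast_mem (clF T) 2
  obtain ⟨t1, t2⟩ := third_mem hpi hk hz'
  have hsum : hz (2 * k + 1) (1 / 6) + hz (2 * k + 1) (5 / 6) ∈ clF T := by
    have h := dist 6 (by norm_num) (k := 2 * k + 1) (by omega)
    simp only [Finset.sum_range_succ, Finset.sum_range_zero] at h
    norm_num at h
    rw [hz_one, hz_half (by omega)] at h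
    have h2 : hz (2 * k + 1) (1 / 6) + hz (2 * k + 1) (5 / 6) = 6 ^ (2 * k + 1) * zt (2 * k + 1)
        - (2 ^ (2 * k + 1) - 1) * zt (2 * k + 1) - zt (2 * k + 1) - hz (2 * k + 1) (1 / 3) - hz (2 * k + 1) (2 / 3) := by
      linarith
    rw [h2]
    have h3 : (6 : ℝ) ∈ clF T := by exact_mod_cast natCast_mem (clF T) 6
    exact (clF T).sub_mem ((clF T).sub_mem ((clF T).sub_mem ((clF T).sub_mem ((clF T).mul_mem ((clF T).pow_mem h3 _) hz')
      ((clF T).mul_mem ((clF T).sub_mem ((clF T).pow_mem h2' _) (clF T).one_mem) hz')) hz') t1) t2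
  have hdiff : hz (2 * k + 1) (1 / 6) - hz (2 * k + 1) (5 / 6) ∈ clF T := by
    have h := sin_sum hpi hk 6 (by norm_num)
    simp only [Finset.sum_range_succ, Finset.sum_range_zero] at h
    rw [sin_c (2 * Real.pi * ((0 + 1 : ℕ) : ℝ) / (6 : ℕ)) (by push_cast; ring),
      sin_a (2 * Real.pi * ((1 + 1 : ℕ) : ℝ) / (6 : ℕ)) (by push_cast; ring),
      sin_g (2 * Real.pi * ((2 + 1 : ℕ) : ℝ) / (6 : ℕ)) (by push_cast; ring),
      sin_b (2 * Real.pi * ((3 + 1 : ℕ) : ℝ) / (6 : ℕ)) (by push_cast; ring),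
      sin_d (2 * Real.pi * ((4 + 1 : ℕ) : ℝ) / (6 : ℕ)) (by push_cast; ring),
      sin_h (2 * Real.pi * ((5 + 1 : ℕ) : ℝ) / (6 : ℕ)) (by push_cast; ring)] at h
    have h3 : Real.sqrt 3 / 2 * (hz (2 * k + 1) (1 / 6) - hz (2 * k + 1) (5 / 6) +
        (hz (2 * k + 1) (1 / 3) - hz (2 * k + 1) (2 / 3))) ∈ clF T := by
      convert h using 1
      norm_num
      ring
    have h4 := cancel_mem (sq3_mem T) (by positivity) h3
    have h5 : hz (2 * k + 1) (1 / 6) - hz (2 * k + 1) (5 / 6) = (hz (2 * k + 1) (1 / 6) - hz (2 * k + 1) (5 / 6) +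
        (hz (2 * k + 1) (1 / 3) - hz (2 * k + 1) (2 / 3))) - (hz (2 * k + 1) (1 / 3) - hz (2 * k + 1) (2 / 3)) := by ring
    rw [h5]
    exact (clF T).sub_mem h4 ((clF T).sub_mem t1 t2)
  exact half_sum hsum hdiff

/-- all denominators `1, 2, 3, 4, 6` -/
lemma small_den {a : ℚ} (ha : 0 < a) (ha1 : a ≤ 1) (hd : a.den ∈ ({1, 2, 3, 4, 6} : Set ℕ)) :
    hz (2 * k + 1) a ∈ clF T := by
  have hnum : 0 < a.num := Rat.num_pos.2 ha
  have hle : a.num ≤ a.den := by
    have := Rat.le_iff a 1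
    simp at this
    exact this.1 ha1
  have ha' : a = a.num / a.den := (Rat.num_div_den a).symm
  have hcop := a.reduced
  simp only [mem_insert_iff, mem_singleton_iff] at hd
  have key : a = 1 ∨ a = 1 / 2 ∨ a = 1 / 3 ∨ a = 2 / 3 ∨ a = 1 / 4 ∨ a = 3 / 4 ∨ a = 1 / 6 ∨ a = 5 / 6 := by
    rcases hd with hd | hd | hd | hd | hd <;> rw [hd] at ha' hle hcop <;> push_cast at ha' hle
    · have : a.num = 1 := by omega
      rw [this] at ha'; left; rw [ha']; norm_num
    · have : a.num = 1 ∨ a.num = 2 := by omega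
      rcases this with h | h <;> rw [h] at ha' hcop
      · right; left; rw [ha']; norm_num
      · exact absurd hcop (by decide)
    · have : a.num = 1 ∨ a.num = 2 ∨ a.num = 3 := by omega
      rcases this with h | h | h <;> rw [h] at ha' hcop
      · right; right; left; rw [ha']; norm_num
      · right; right; right; left; rw [ha']; norm_num
      · exact absurd hcop (by decide)
    · have : a.num = 1 ∨ a.num = 2 ∨ a.num = 3 ∨ a.num = 4 := by omega
      rcases this with h | h | h | h <;> rw [h] at ha' hcop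
      · right; right; right; right; left; rw [ha']; norm_num
      · exact absurd hcop (by decide)
      · right; right; right; right; right; left; rw [ha']; norm_num
      · exact absurd hcop (by decide)
    · have : a.num = 1 ∨ a.num = 2 ∨ a.num = 3 ∨ a.num = 4 ∨ a.num = 5 ∨ a.num = 6 := by omega
      rcases this with h | h | h | h | h | h <;> rw [h] at ha' hcop
      · right; right; right; right; right; right; left; rw [ha']; norm_num
      · exact absurd hcop (by decide)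
      · exact absurd hcop (by decide)
      · exact absurd hcop (by decide)
      · right; right; right; right; right; right; right; rw [ha']; norm_num
      · exact absurd hcop (by decide)
  have h2' : (2 : ℝ) ∈ clF T := by exact_mod_cast natCast_mem (clF T) 2
  rcases key with rfl | rfl | rfl | rfl | rfl | rfl | rfl | rfl <;> push_cast
  · rw [hz_one]; exact hz'
  · rw [hz_half (by omega)]
    exact (clF T).mul_mem ((clF T).sub_mem ((clF T).pow_mem h2' _) (clF T).one_mem) hz'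
  · exact (third_mem hpi hk hz').1
  · exact (third_mem hpi hk hz').2
  · exact (quarter_mem hpi hk hz').1
  · exact (quarter_mem hpi hk hz').2
  · exact (sixth_mem hpi hk hz').1
  · exact (sixth_mem hpi hk hz').2

end

end Pool.Agent.V7H31.IG
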