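import Pool.Agent.V7H31.IG.Ind

/-!
# The limit `x → ∞`
-/

set_option autoImplicit false

open Filter Topology Set MeasureTheory Asymptotics

namespace Pool.Agent.V7H31.IG

open Pool.Agent.R352.T (fa fa_integrable Ma ma ma_zero mellin_ma fa_mellin)
open Pool.Agent.R352.E (fl fr fl_zero mellin_fl fr_integrable)

/-- the truncated function -/
noncomputable def fx (x : ℝ) (n : ℕ) : ℝ → ℂ := (Iic x).indicator (fl n)

lemma fx_int (x : ℝ) (n : ℕ) : IntegrableOn (fx x n) (Ioi 0) :=
  ((fr_integrable n).ofReal (𝕜 := ℂ)).indicator measurableSet_Iic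

lemma fx_top (x : ℝ) (n : ℕ) (a : ℝ) : fx x n =O[atTop] (fun t : ℝ => t ^ (-a)) := by
  refine IsBigO.of_bound 1 ?_
  filter_upwards [eventually_gt_atTop x] with t ht
  rw [fx, indicator_of_notMem (by simpa using ht)]
  simp

lemma fx_zero {x : ℝ} (hx : 0 < x) (n : ℕ) {b : ℝ} (hb : 0 < b) : fx x n =O[𝓝[>] 0] (fun t : ℝ => t ^ (-b)) := by
  refine (fl_zero n hb).congr' ?_ EventuallyEq.rfl
  filter_upwards [Ioo_mem_nhdsGT hx] with t ht
  rw [fx, indicator_of_mem (show t ∈ Iic x from ht.2.le)]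

lemma mellin_fx {x : ℝ} (hx : 0 < x) (n : ℕ) {s : ℂ} (hs : 0 < s.re) :
    HasDerivAt (mellin (fx x n)) (mellin (fx x (n + 1)) s) s := by
  have h := mellin_hasDerivAt_of_isBigO_rpow (fx_int x n).locallyIntegrableOn (fx_top x n (s.re + 1)) (by linarith)
    (fx_zero hx n (half_pos hs)) (by linarith)
  have h1 : (fun t : ℝ => Real.log t • fx x n t) = fx x (n + 1) := by
    funext t
    by_cases ht : t ∈ Iic x
    · simp only [fx, indicator_of_mem ht, fl, fr, Complex.real_smul]
      push_cast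
      ring
    · simp only [fx, indicator_of_notMem ht, smul_zero]
  rw [h1] at h
  exact h.2

lemma mellin_fx_eq {x : ℝ} (hx : 0 < x) (n : ℕ) (a : ℝ) : mellin (fx x n) a = ((Ma a n x : ℝ) : ℂ) := by
  have h1 : ∀ t ∈ Ioi (0 : ℝ), (t : ℂ) ^ ((a : ℂ) - 1) • fx x n t = (Iic x).indicator (fun t => ((fa a n t : ℝ) : ℂ)) t := by
    intro t ht
    by_cases htx : t ∈ Iic x
    · rw [fx, indicator_of_mem htx, indicator_of_mem htx]
      exact fa_mellin ht n
    · rw [fx, indicator_of_notMem htx, indicator_of_notMem htx, smul_zero]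
  rw [mellin, setIntegral_congr_fun measurableSet_Ioi h1, setIntegral_indicator measurableSet_Iic, Ioi_inter_Iic,
    integral_complex_ofReal, Ma, intervalIntegral.integral_of_le hx.le]

lemma Ma_deriv_s {x : ℝ} (hx : 0 < x) (n : ℕ) (s : ℝ) (hs : 0 < s) :
    HasDerivAt (fun s => Ma s n x) (Ma s (n + 1) x) s := by
  have h := (mellin_fx hx n (s := (s : ℂ)) (by simpa using hs)).real_of_complex
  refine (h.congr_deriv ?_).congr_of_eventuallyEq (Eventually.of_forall fun z => ?_)
  · rw [mellin_fx_eq hx, Complex.ofReal_re]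
  · simp only [mellin_fx_eq hx, Complex.ofReal_re]

lemma ma_deriv_s (n : ℕ) (s : ℝ) (hs : 0 < s) : HasDerivAt (fun s => ma s n) (ma s (n + 1)) s := by
  have h := (mellin_fl n (s := (s : ℂ)) (by simpa using hs)).2.real_of_complex
  refine (h.congr_deriv ?_).congr_of_eventuallyEq (Eventually.of_forall fun z => ?_)
  · rw [mellin_ma, Complex.ofReal_re]
  · simp only [mellin_ma, Complex.ofReal_re]

lemma lg_smooth {x : ℝ} (hx : 0 < x) (s : ℝ) (hs : 0 < s) : ContDiffAt ℝ (⊤ : ℕ∞) (fun s => lg s x) s := by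
  have h := contDiffAt_of_seq (F := fun n s => Ma s n x) (fun n s hs => Ma_deriv_s hx n s hs) hs
  exact h.congr_of_eventuallyEq (Eventually.of_forall fun z => lg_eq_Ma z x)

lemma lg_iter {x : ℝ} (hx : 0 < x) (n : ℕ) {s : ℝ} (hs : 0 < s) : iteratedDeriv n (fun s => lg s x) s = Ma s n x := by
  have h := iter_of_seq (F := fun n s => Ma s n x) (fun n s hs => Ma_deriv_s hx n s hs) n s hs
  rw [← h]
  congr 1
  funext z
  exact lg_eq_Ma z x

lemma Gam_smooth (s : ℝ) (hs : 0 < s) : ContDiffAt ℝ (⊤ : ℕ∞) Real.Gamma s := by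
  have h := contDiffAt_of_seq (F := fun n s => ma s n) (fun n s hs => ma_deriv_s n s hs) hs
  refine h.congr_of_eventuallyEq ?_
  filter_upwards [Ioi_mem_nhds hs] with t ht
  exact (ma_zero ht).symm

lemma Gam_iter (n : ℕ) {s : ℝ} (hs : 0 < s) : iteratedDeriv n Real.Gamma s = ma s n := by
  have h := iter_of_seq (F := fun n s => ma s n) (fun n s hs => ma_deriv_s n s hs) n s hs
  rw [← h]
  refine Filter.EventuallyEq.iteratedDeriv_eq n ?_
  filter_upwards [Ioi_mem_nhds hs] with t ht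
  exact (ma_zero ht).symm

lemma Ma_tendsto {a : ℝ} (ha : 0 < a) (n : ℕ) : Tendsto (fun x => Ma a n x) atTop (𝓝 (ma a n)) := by
  simp only [Ma, ma]
  exact intervalIntegral_tendsto_integral_Ioi 0 (fa_integrable ha n) tendsto_id

/-- solving for the highest derivative of the logarithm -/
lemma log_rel' {F : ℝ → ℝ} (hF : ∀ s, 0 < s → ContDiffAt ℝ (⊤ : ℕ∞) F s) (hpos : ∀ s, 0 < s → 0 < F s) (n : ℕ) {a : ℝ}
    (ha : 0 < a) :
    iteratedDeriv (n + 1) (fun s => Real.log (F s)) a = (iteratedDeriv (n + 1) F a -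
      ∑ i ∈ Finset.range n, (n.choose (i + 1) : ℝ) * iteratedDeriv (i + 1) F a *
        iteratedDeriv (n - (i + 1) + 1) (fun s => Real.log (F s)) a) / F a := by
  rw [log_rel hF hpos n ha, Finset.sum_range_succ', eq_div_iff (hpos a ha).ne']
  simp only [Nat.choose_zero_right, Nat.cast_one, one_mul, iteratedDeriv_zero, Nat.sub_zero]
  ring

lemma ka_tendsto {a : ℝ} (ha : 0 < a) (k : ℕ) (hk : 1 ≤ k) :
    Tendsto (fun x => ka k a x) atTop (𝓝 (iteratedDeriv k (fun s => Real.log (Real.Gamma s)) a)) := by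
  induction k using Nat.strong_induction_on with
  | _ k ih =>
    obtain ⟨n, rfl⟩ : ∃ n, k = n + 1 := ⟨k - 1, by omega⟩
    have h1 := log_rel' (F := Real.Gamma) Gam_smooth (fun s hs => Real.Gamma_pos_of_pos hs) n ha
    have h2 : ∀ᶠ x : ℝ in atTop, (Ma a (n + 1) x - ∑ i ∈ Finset.range n, (n.choose (i + 1) : ℝ) * Ma a (i + 1) x *
        ka (n - (i + 1) + 1) a x) / Ma a 0 x = ka (n + 1) a x := by
      filter_upwards [eventually_gt_atTop 0] with x hx
      have h3 := log_rel' (F := fun s => lg s x) (lg_smooth hx) (fun s hs => lg_pos hs hx) n ha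
      simp only [lg_iter hx _ ha] at h3
      rw [lg_eq_Ma] at h3
      exact h3.symm
    refine Tendsto.congr' h2 ?_
    rw [h1]
    simp only [Gam_iter _ ha]
    rw [← ma_zero ha]
    refine Tendsto.div ((Ma_tendsto ha _).sub (tendsto_finsetSum _ fun i hi => ?_)) (Ma_tendsto ha 0) ?_
    · have hi' := Finset.mem_range.1 hi
      exact ((Ma_tendsto ha _).const_mul _).mul (ih _ (by omega) (by omega))
    · rw [ma_zero ha]
      exact (Real.Gamma_pos_of_pos ha).ne'

lemma La_tendsto {a : ℝ} (ha : 0 < a) (k : ℕ) (hk : 2 ≤ k) : Tendsto (fun x => La k a x) atTop (𝓝 0) := by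
  have h1 := (ka_tendsto ha k (by omega)).sub_const (iteratedDeriv k (fun s => Real.log (Real.Gamma s)) a)
  rw [sub_self] at h1
  refine h1.congr' ?_
  filter_upwards [eventually_gt_atTop 0] with x hx
  rw [La_eq hk ha hx, logGamma_iter hk ha]

end Pool.Agent.V7H31.IG
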