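import Mathlib

/-!
# Sequences of derivatives on the half line, and the derivatives of a logarithm
-/

set_option autoImplicit false

open Filter Topology Set

namespace Pool.Agent.V7H31.IG

/-- the iterated derivatives on `(0, ∞)` from a sequence of functions, each the derivative of the one before -/
lemma iter_of_seq {F : ℕ → ℝ → ℝ} (h : ∀ n s, 0 < s → HasDerivAt (F n) (F (n + 1) s) s) (n : ℕ) :
    ∀ s : ℝ, 0 < s → iteratedDeriv n (F 0) s = F n s := by
  induction n with
  | zero => intro s _; simp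
  | succ n ih =>
    intro s hs
    rw [iteratedDeriv_succ]
    have h1 : iteratedDeriv n (F 0) =ᶠ[𝓝 s] F n := by
      filter_upwards [Ioi_mem_nhds hs] with t ht
      exact ih t ht
    rw [h1.deriv_eq]
    exact (h n s hs).deriv

lemma contDiff_of_seq {F : ℕ → ℝ → ℝ} (h : ∀ n s, 0 < s → HasDerivAt (F n) (F (n + 1) s) s) :
    ContDiffOn ℝ (⊤ : ℕ∞) (F 0) (Ioi 0) := by
  refine contDiffOn_of_differentiableOn_deriv fun m _ => ?_
  have h1 : Set.EqOn (iteratedDerivWithin m (F 0) (Ioi 0)) (F m) (Ioi 0) := by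
    intro s hs
    rw [iteratedDerivWithin_of_isOpen isOpen_Ioi hs]
    exact iter_of_seq h m s hs
  refine DifferentiableOn.congr (f := F m) ?_ h1
  intro s hs
  exact (h m s hs).differentiableAt.differentiableWithinAt

lemma contDiffAt_of_seq {F : ℕ → ℝ → ℝ} (h : ∀ n s, 0 < s → HasDerivAt (F n) (F (n + 1) s) s) {s : ℝ} (hs : 0 < s) :
    ContDiffAt ℝ (⊤ : ℕ∞) (F 0) s := (contDiff_of_seq h).contDiffAt (Ioi_mem_nhds hs)

/-- the derivatives of `F` in terms of those of `log F` -/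
lemma log_rel {F : ℝ → ℝ} (hF : ∀ s, 0 < s → ContDiffAt ℝ (⊤ : ℕ∞) F s) (hpos : ∀ s, 0 < s → 0 < F s) (n : ℕ) {a : ℝ}
    (ha : 0 < a) :
    iteratedDeriv (n + 1) F a = ∑ i ∈ Finset.range (n + 1), (n.choose i : ℝ) * iteratedDeriv i F a *
      iteratedDeriv (n - i + 1) (fun s => Real.log (F s)) a := by
  have hlog : ∀ s, 0 < s → ContDiffAt ℝ (⊤ : ℕ∞) (fun s => Real.log (F s)) s := fun s hs =>
    (hF s hs).log (hpos s hs).ne'
  have hd : ∀ s, 0 < s → ContDiffAt ℝ (⊤ : ℕ∞) (deriv (fun s => Real.log (F s))) s := by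
    intro s hs
    have h1 : ContDiffOn ℝ (⊤ : ℕ∞) (fun s => Real.log (F s)) (Ioi 0) := fun t ht => (hlog t ht).contDiffWithinAt
    exact ((contDiffOn_infty_iff_deriv_of_isOpen isOpen_Ioi).1 h1).2.contDiffAt (Ioi_mem_nhds hs)
  have h1 : Set.EqOn (deriv F) (F * deriv (fun s => Real.log (F s))) (Ioi 0) := by
    intro s hs
    have h2 : HasDerivAt F (deriv F s) s := ((hF s hs).differentiableAt (by simp)).hasDerivAt
    have h3 := (h2.log (hpos s hs).ne').deriv
    rw [Pi.mul_apply, h3, mul_div_cancel₀ _ (hpos s hs).ne']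
  rw [iteratedDeriv_succ', h1.iteratedDeriv_of_isOpen isOpen_Ioi n ha,
    iteratedDeriv_mul ((hF a ha).of_le (by exact_mod_cast le_top)) ((hd a ha).of_le (by exact_mod_cast le_top))]
  refine Finset.sum_congr rfl fun i _ => ?_
  rw [iteratedDeriv_succ']

end Pool.Agent.V7H31.IG
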