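import Pool.Agent.R352.T.Fam
import Pool.Agent.V7H31.IG.Der

/-!
# The derivatives of `log Γ` and the Hurwitz zeta values
-/

set_option autoImplicit false

open Filter Topology Set MeasureTheory

namespace Pool.Agent.V7H31.IG

open Pool.Agent.R352.E (psi psi1 Gamma_deriv psi_deriv)

/-- the Hurwitz zeta values -/
noncomputable def hz (k : ℕ) (s : ℝ) : ℝ := ∑' n : ℕ, 1 / ((n : ℝ) + s) ^ k

lemma inv_summable : Summable (fun n : ℕ => 1 / ((n : ℝ) + 1) ^ 2) := by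
  have := (summable_nat_add_iff 1).2 (Real.summable_one_div_nat_pow.2 (show 1 < 2 by norm_num))
  refine this.congr fun n => ?_
  push_cast
  rfl

lemma hz_bound {k : ℕ} (hk : 2 ≤ k) (n : ℕ) {s : ℝ} (hs : 0 < s) : 1 / ((n : ℝ) + 1 + s) ^ k ≤ 1 / ((n : ℝ) + 1) ^ 2 := by
  have h1 : (1 : ℝ) ≤ (n : ℝ) + 1 := by linarith [show (0 : ℝ) ≤ n by positivity]
  refine one_div_le_one_div_of_le (by positivity) ?_
  calc ((n : ℝ) + 1) ^ 2 ≤ ((n : ℝ) + 1) ^ k := pow_le_pow_right₀ h1 hk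
    _ ≤ _ := pow_le_pow_left₀ (by positivity) (by linarith) k

lemma hz_summable' {k : ℕ} (hk : 2 ≤ k) {s : ℝ} (hs : 0 < s) : Summable (fun n : ℕ => 1 / ((n : ℝ) + 1 + s) ^ k) := by
  refine Summable.of_nonneg_of_le (fun n => by positivity) (fun n => hz_bound hk n hs) inv_summable

lemma hz_summable {k : ℕ} (hk : 2 ≤ k) {s : ℝ} (hs : 0 < s) : Summable (fun n : ℕ => 1 / ((n : ℝ) + s) ^ k) := by
  rw [← summable_nat_add_iff 1]
  refine (hz_summable' hk hs).congr fun n => ?_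
  push_cast
  rfl

lemma hz_eq {k : ℕ} (hk : 2 ≤ k) {s : ℝ} (hs : 0 < s) :
    hz k s = 1 / s ^ k + ∑' n : ℕ, 1 / ((n : ℝ) + 1 + s) ^ k := by
  rw [hz, (hz_summable hk hs).tsum_eq_zero_add]
  simp

lemma pow_inv_deriv (k : ℕ) (c : ℝ) {y : ℝ} (hy : 0 < c + y) :
    HasDerivAt (fun z : ℝ => 1 / (c + z) ^ k) (-(k : ℝ) * (1 / (c + y) ^ (k + 1))) y := by
  have h2 : HasDerivAt (fun z : ℝ => c + z) 1 y := (hasDerivAt_id y).const_add _
  have h3 := (h2.pow k).inv (pow_ne_zero k hy.ne')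
  refine (h3.congr_deriv ?_).congr_of_eventuallyEq (Eventually.of_forall fun z => ?_)
  · rcases k with _ | k
    · simp
    · rw [Nat.add_sub_cancel]
      push_cast
      simp only [Pi.pow_apply]
      field_simp
      ring
  · simp

lemma hz_deriv {k : ℕ} (hk : 2 ≤ k) {s : ℝ} (hs : 0 < s) : HasDerivAt (hz k) (-(k : ℝ) * hz (k + 1) s) s := by
  have h1 : HasDerivAt (fun z : ℝ => ∑' n : ℕ, 1 / ((n : ℝ) + 1 + z) ^ k)
      (∑' n : ℕ, -(k : ℝ) * (1 / ((n : ℝ) + 1 + s) ^ (k + 1))) s := by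
    refine hasDerivAt_tsum_of_isPreconnected (u := fun n : ℕ => (k : ℝ) * (1 / ((n : ℝ) + 1) ^ 2))
      (inv_summable.mul_left _)
      isOpen_Ioi (convex_Ioi (0 : ℝ)).isPreconnected (g := fun (n : ℕ) (z : ℝ) => 1 / ((n : ℝ) + 1 + z) ^ k)
      (g' := fun (n : ℕ) (z : ℝ) => -(k : ℝ) * (1 / ((n : ℝ) + 1 + z) ^ (k + 1))) ?_ ?_ (y₀ := s) hs
      (hz_summable' hk hs) hs
    · intro n y hy
      have hy' : (0 : ℝ) < y := hy
      exact pow_inv_deriv k _ (by positivity)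
    · intro n y hy
      have hy' : (0 : ℝ) < y := hy
      rw [norm_mul, norm_neg, Real.norm_eq_abs, Real.norm_eq_abs, Nat.abs_cast, abs_of_nonneg (by positivity)]
      exact mul_le_mul_of_nonneg_left (hz_bound (by omega) n hy') (by positivity)
  have h2 : HasDerivAt (fun z : ℝ => 1 / z ^ k) (-(k : ℝ) * (1 / s ^ (k + 1))) s := by
    have := pow_inv_deriv k 0 (y := s) (by simpa using hs)
    simpa using this
  have h3 : HasDerivAt (hz k) (-(k : ℝ) * (1 / s ^ (k + 1)) + ∑' n : ℕ, -(k : ℝ) * (1 / ((n : ℝ) + 1 + s) ^ (k + 1))) s := by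
    refine (h2.add h1).congr_of_eventuallyEq ?_
    filter_upwards [Ioi_mem_nhds hs] with t ht
    exact hz_eq hk ht
  refine h3.congr_deriv ?_
  rw [tsum_mul_left, hz_eq (by omega) hs, mul_add]

/-- the sequence of derivatives of `log Γ` -/
noncomputable def dLG : ℕ → ℝ → ℝ
  | 0 => fun s => Real.log (Real.Gamma s)
  | 1 => fun s => (psi s).re
  | (k + 2) => fun s => (-1) ^ k * (k + 1).factorial * hz (k + 2) s

lemma ofReal_re_pos {s : ℝ} (hs : 0 < s) : 0 < ((s : ℂ)).re := by simpa using hs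

lemma Gamma_hasDeriv {s : ℝ} (hs : 0 < s) : HasDerivAt Real.Gamma (Real.Gamma s * (psi s).re) s := by
  have h := (Gamma_deriv (ofReal_re_pos hs)).real_of_complex
  refine (h.congr_deriv ?_).congr_of_eventuallyEq (Eventually.of_forall fun z => ?_)
  · rw [Complex.Gamma_ofReal, Complex.re_ofReal_mul]
  · simp only [Complex.Gamma_ofReal, Complex.ofReal_re]

lemma psi1_re {s : ℝ} (hs : 0 < s) : (psi1 s).re = hz 2 s := by
  have h : psi1 s = ((hz 2 s : ℝ) : ℂ) := by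
    rw [psi1, hz_eq le_rfl hs]
    push_cast
    congr 1
    refine tsum_congr fun n => ?_
    rw [add_comm (s : ℂ)]
  rw [h, Complex.ofReal_re]

lemma dLG_deriv : ∀ (n : ℕ) (s : ℝ), 0 < s → HasDerivAt (dLG n) (dLG (n + 1) s) s
  | 0, s, hs => by
    have h := (Gamma_hasDeriv hs).log (Real.Gamma_pos_of_pos hs).ne'
    refine h.congr_deriv ?_
    rw [mul_div_cancel_left₀ _ (Real.Gamma_pos_of_pos hs).ne']
    rfl
  | 1, s, hs => by
    have h := (psi_deriv (ofReal_re_pos hs)).real_of_complex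
    refine h.congr_deriv ?_
    rw [psi1_re hs]
    simp [dLG]
  | (k + 2), s, hs => by
    have h := (hz_deriv (k := k + 2) (by omega) hs).const_mul ((-1) ^ k * ((k + 1).factorial : ℝ))
    refine h.congr_deriv ?_
    show _ = (-1) ^ (k + 1) * ((k + 1 + 1).factorial : ℝ) * hz (k + 1 + 2) s
    rw [Nat.factorial_succ (k + 1), pow_succ]
    push_cast
    ring

lemma dLG_zero : dLG 0 = fun s => Real.log (Real.Gamma s) := rfl

/-- the polygamma values -/
lemma logGamma_iter {k : ℕ} (hk : 2 ≤ k) {s : ℝ} (hs : 0 < s) :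
    iteratedDeriv k (fun s => Real.log (Real.Gamma s)) s = (-1) ^ k * (k - 1).factorial * hz k s := by
  obtain ⟨j, rfl⟩ : ∃ j, k = j + 2 := ⟨k - 2, by omega⟩
  have h := iter_of_seq dLG_deriv (j + 2) s hs
  rw [dLG_zero] at h
  rw [h]
  show (-1) ^ j * ((j + 1).factorial : ℝ) * hz (j + 2) s = (-1) ^ (j + 2) * ((j + 2 - 1).factorial : ℝ) * hz (j + 2) s
  have h2 : j + 2 - 1 = j + 1 := by omega
  rw [h2, pow_add]
  norm_num

lemma logGamma_smooth (s : ℝ) (hs : 0 < s) : ContDiffAt ℝ (⊤ : ℕ∞) (fun s => Real.log (Real.Gamma s)) s := by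
  have := contDiffAt_of_seq dLG_deriv hs
  rwa [dLG_zero] at this

/-- the value at `1` -/
lemma hz_one (k : ℕ) : hz k 1 = Pool.Agent.R352.E.zt k := by
  rw [hz, Pool.Agent.R352.E.zt]

/-- the value at `1/2` -/
lemma hz_half {k : ℕ} (hk : 2 ≤ k) : hz k (1 / 2) = (2 ^ k - 1) * Pool.Agent.R352.E.zt k := by
  have hs : Summable (fun n : ℕ => 1 / ((n : ℝ) + 1) ^ k) := hz_summable hk one_pos
  have h1 : ∑' n : ℕ, 1 / (((2 * n : ℕ) : ℝ) + 1) ^ k + ∑' n : ℕ, 1 / (((2 * n + 1 : ℕ) : ℝ) + 1) ^ k =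
      ∑' n : ℕ, 1 / ((n : ℝ) + 1) ^ k := by
    refine tsum_even_add_odd (f := fun n : ℕ => 1 / ((n : ℝ) + 1) ^ k) ?_ ?_
    · exact hs.comp_injective (fun a b h => by simpa using h)
    · exact hs.comp_injective (fun a b h => by simpa using h)
  have h2 : ∑' n : ℕ, 1 / (((2 * n : ℕ) : ℝ) + 1) ^ k = 1 / 2 ^ k * hz k (1 / 2) := by
    rw [hz, ← tsum_mul_left]
    refine tsum_congr fun n => ?_
    rw [one_div_mul_one_div, ← mul_pow]
    push_cast
    congr 2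
    ring
  have h3 : ∑' n : ℕ, 1 / (((2 * n + 1 : ℕ) : ℝ) + 1) ^ k = 1 / 2 ^ k * ∑' n : ℕ, 1 / ((n : ℝ) + 1) ^ k := by
    rw [← tsum_mul_left]
    refine tsum_congr fun n => ?_
    rw [one_div_mul_one_div, ← mul_pow]
    push_cast
    congr 2
    ring
  rw [h2, h3] at h1
  rw [Pool.Agent.R352.E.zt]
  have h4 : (2 : ℝ) ^ k ≠ 0 := by positivity
  field_simp at h1
  linarith

end Pool.Agent.V7H31.IG
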