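import Pool.Agent.R352.T.Fam
import Pool.Agent.V7H31.IG.Der

/-!
# The lower incomplete gamma function as a function of its first argument
-/

set_option autoImplicit false

open Filter Topology Set MeasureTheory

namespace Pool.Agent.V7H31.IG

open Pool.Agent.R352.T (EA EB)

/-- the lower incomplete gamma function -/
noncomputable def lg (s x : ℝ) : ℝ := ∫ t in (0 : ℝ)..x, t ^ (s - 1) * Real.exp (-t)

/-- `∑_{m ≥ 0} (-x)^m / (m! (m + s)^(n+1))` -/
noncomputable def hG (x : ℝ) (n : ℕ) (s : ℝ) : ℝ := 1 / s ^ (n + 1) - EA s (n + 1) x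

lemma EA_deriv_s (l : ℕ) (x : ℝ) {s : ℝ} (hs : 0 < s) :
    HasDerivAt (fun s => EA s (l + 1) x) (-((l : ℝ) + 1) * EA s (l + 2) x) s := by
  have key : HasDerivAt (fun s => EA s (l + 1) x)
      (∑' m : ℕ, -((l : ℝ) + 1) * (-(-x) ^ (m + 1) / ((m + 1).factorial * ((m : ℝ) + 1 + s) ^ (l + 2)))) s := by
    refine hasDerivAt_tsum_of_isPreconnected
      (u := fun m : ℕ => ((l : ℝ) + 1) * (|x| * (|x| ^ m / m.factorial)))
      (((Real.summable_pow_div_factorial |x|).mul_left _).mul_left _)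
      isOpen_Ioi (convex_Ioi (0 : ℝ)).isPreconnected
      (g := fun (m : ℕ) (y : ℝ) => -(-x) ^ (m + 1) / ((m + 1).factorial * ((m : ℝ) + 1 + y) ^ (l + 1)))
      (g' := fun (m : ℕ) (y : ℝ) => -((l : ℝ) + 1) * (-(-x) ^ (m + 1) / ((m + 1).factorial * ((m : ℝ) + 1 + y) ^ (l + 2))))
      ?_ ?_ (y₀ := s) hs ?_ hs
    · intro m y hy
      have hy' : (0 : ℝ) < y := hy
      have h0 : (0 : ℝ) < (m : ℝ) + 1 + y := by positivity
      have h1 : HasDerivAt (fun y : ℝ => (m : ℝ) + 1 + y) 1 y := (hasDerivAt_id y).const_add _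
      have h2 := ((h1.pow (l + 1)).const_mul ((m + 1).factorial : ℝ)).inv
        (mul_ne_zero (by positivity) (pow_ne_zero _ h0.ne'))
      have h3 := h2.const_mul (-(-x) ^ (m + 1))
      refine (h3.congr_deriv ?_).congr_of_eventuallyEq (Eventually.of_forall fun z => ?_)
      · have hf : ((m + 1).factorial : ℝ) ≠ 0 := by positivity
        have h4 : l + 1 - 1 = l := rfl
        rw [h4]
        push_cast
        simp only [Pi.pow_apply]
        field_simp
        ring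
      · simp [div_eq_mul_inv]
    · intro m y hy
      have hy' : (0 : ℝ) < y := hy
      have h5 : (1 : ℝ) ≤ (m : ℝ) + 1 + y := by linarith [show (0 : ℝ) ≤ m by positivity]
      rw [norm_mul, norm_neg, Real.norm_eq_abs, abs_of_nonneg (by positivity : (0 : ℝ) ≤ (l : ℝ) + 1), norm_div, norm_neg,
        norm_pow, norm_neg, Real.norm_eq_abs, norm_mul, norm_pow, Real.norm_eq_abs, Real.norm_eq_abs,
        abs_of_nonneg (by positivity : (0 : ℝ) ≤ ((m + 1).factorial : ℝ)),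
        abs_of_nonneg (by positivity : (0 : ℝ) ≤ (m : ℝ) + 1 + y)]
      refine mul_le_mul_of_nonneg_left ?_ (by positivity)
      rw [mul_div_assoc', ← pow_succ']
      refine div_le_div_of_nonneg_left (by positivity) (by positivity) ?_
      have h3 : (m.factorial : ℝ) ≤ (m + 1).factorial := by exact_mod_cast Nat.factorial_le (Nat.le_succ m)
      calc (m.factorial : ℝ) ≤ (m + 1).factorial * 1 := by rw [mul_one]; exact h3
        _ ≤ _ := mul_le_mul_of_nonneg_left (one_le_pow₀ h5) (by positivity)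
    · have := (Pool.Agent.R352.T.EB_summable hs.le (l + 1) x).mul_left x
      refine this.congr fun m => ?_
      rw [pow_succ]; ring
  refine key.congr_deriv ?_
  rw [tsum_mul_left, EA]

lemma hG_deriv (x : ℝ) (n : ℕ) {s : ℝ} (hs : 0 < s) :
    HasDerivAt (hG x n) (-((n : ℝ) + 1) * hG x (n + 1) s) s := by
  have h1 : HasDerivAt (fun s : ℝ => 1 / s ^ (n + 1)) (-((n : ℝ) + 1) * (1 / s ^ (n + 2))) s := by
    have h2 := (hasDerivAt_pow (n + 1) s).inv (pow_ne_zero _ hs.ne')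
    refine (h2.congr_deriv ?_).congr_of_eventuallyEq (Eventually.of_forall fun z => ?_)
    · rw [Nat.add_sub_cancel]
      push_cast
      field_simp
      ring
    · simp
  refine (h1.sub (EA_deriv_s n x hs)).congr_deriv ?_
  rw [hG]
  ring

/-- the sequence of derivatives -/
noncomputable def dG (x : ℝ) (n : ℕ) (s : ℝ) : ℝ := (-1) ^ n * n.factorial * hG x n s

lemma dG_deriv (x : ℝ) (n : ℕ) (s : ℝ) (hs : 0 < s) : HasDerivAt (dG x n) (dG x (n + 1) s) s := by
  refine ((hG_deriv x n hs).const_mul ((-1) ^ n * (n.factorial : ℝ))).congr_deriv ?_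
  rw [dG, Nat.factorial_succ, pow_succ]
  push_cast
  ring

lemma dG_zero (x : ℝ) : dG x 0 = hG x 0 := by
  funext s
  simp [dG]

lemma lg_eq_Ma (s x : ℝ) : lg s x = Pool.Agent.R352.T.Ma s 0 x := by
  rw [lg, Pool.Agent.R352.T.Ma]
  refine intervalIntegral.integral_congr fun t _ => ?_
  simp [Pool.Agent.R352.T.fa, Pool.Agent.R352.E.fr]

lemma lg_eq {s x : ℝ} (hs : 0 < s) (hx : 0 < x) : lg s x = x ^ s * hG x 0 s := by
  have h := Pool.Agent.R352.T.RA_eq_QA hs 0 hx
  rw [Pool.Agent.R352.T.RA, Pool.Agent.R352.T.QA] at h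
  rw [lg_eq_Ma, hG]
  simp at h
  simp
  linarith

lemma lg_pos {s x : ℝ} (hs : 0 < s) (hx : 0 < x) : 0 < lg s x := by
  rw [lg]
  refine intervalIntegral.intervalIntegral_pos_of_pos_on ?_ (fun t ht => ?_) hx
  · have h := Pool.Agent.R352.T.fa_interval hs 0 hx.le
    refine h.congr fun t _ => ?_
    simp [Pool.Agent.R352.T.fa, Pool.Agent.R352.E.fr]
  · exact mul_pos (Real.rpow_pos_of_pos ht.1 _) (Real.exp_pos _)

lemma hG_pos {s x : ℝ} (hs : 0 < s) (hx : 0 < x) : 0 < hG x 0 s := by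
  have h1 := lg_pos hs hx
  rw [lg_eq hs hx] at h1
  exact (mul_pos_iff_of_pos_left (Real.rpow_pos_of_pos hx s)).1 h1

lemma hG_smooth (x : ℝ) (s : ℝ) (hs : 0 < s) : ContDiffAt ℝ (⊤ : ℕ∞) (hG x 0) s := by
  have := contDiffAt_of_seq (dG_deriv x) hs
  rwa [dG_zero] at this

lemma hG_iter (x : ℝ) (n : ℕ) {s : ℝ} (hs : 0 < s) : iteratedDeriv n (hG x 0) s = dG x n s := by
  have := iter_of_seq (dG_deriv x) n s hs
  rwa [dG_zero] at this

/-- `log` of the incomplete gamma function -/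
noncomputable def llg (x s : ℝ) : ℝ := Real.log (lg s x)

lemma llg_eq {s x : ℝ} (hs : 0 < s) (hx : 0 < x) : llg x s = s * Real.log x + Real.log (hG x 0 s) := by
  rw [llg, lg_eq hs hx, Real.log_mul (Real.rpow_pos_of_pos hx s).ne' (hG_pos hs hx).ne', Real.log_rpow hx]

lemma lhG_smooth {x : ℝ} (hx : 0 < x) (s : ℝ) (hs : 0 < s) : ContDiffAt ℝ (⊤ : ℕ∞) (fun s => Real.log (hG x 0 s)) s :=
  (hG_smooth x s hs).log (hG_pos hs hx).ne'

lemma llg_iter {x : ℝ} (hx : 0 < x) {k : ℕ} (hk : 2 ≤ k) {s : ℝ} (hs : 0 < s) :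
    iteratedDeriv k (llg x) s = iteratedDeriv k (fun s => Real.log (hG x 0 s)) s := by
  have h1 : Set.EqOn (llg x) ((fun s => s * Real.log x) + fun s => Real.log (hG x 0 s)) (Ioi 0) := by
    intro t ht
    rw [llg_eq ht hx]
    rfl
  have h2 : ContDiffAt ℝ (⊤ : ℕ∞) (fun s : ℝ => s * Real.log x) s := by fun_prop
  rw [h1.iteratedDeriv_of_isOpen isOpen_Ioi k hs, iteratedDeriv_add (h2.of_le (by exact_mod_cast le_top))
    ((lhG_smooth hx s hs).of_le (by exact_mod_cast le_top))]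
  have h3 : iteratedDeriv k (fun s : ℝ => s * Real.log x) s = 0 := by
    obtain ⟨j, rfl⟩ : ∃ j, k = j + 2 := ⟨k - 2, by omega⟩
    rw [iteratedDeriv_succ', iteratedDeriv_succ']
    have h4 : deriv (fun s : ℝ => s * Real.log x) = fun _ => Real.log x := by
      funext t
      have := (hasDerivAt_id t).mul_const (Real.log x)
      simpa using this.deriv
    rw [h4]
    simp
  rw [h3, zero_add]

lemma llg_smooth {x : ℝ} (hx : 0 < x) (s : ℝ) (hs : 0 < s) : ContDiffAt ℝ (⊤ : ℕ∞) (llg x) s := by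
  have h1 : llg x =ᶠ[𝓝 s] fun s => s * Real.log x + Real.log (hG x 0 s) := by
    filter_upwards [Ioi_mem_nhds hs] with t ht
    exact llg_eq ht hx
  refine ContDiffAt.congr_of_eventuallyEq ?_ h1
  have h2 : ContDiffAt ℝ (⊤ : ℕ∞) (fun s : ℝ => s * Real.log x) s := by fun_prop
  exact h2.add (lhG_smooth hx s hs)

/-- the shift by one -/
lemma EA_one (n : ℕ) (x : ℝ) (hx : 0 < x) : x * hG x n 1 = EA 0 n x := by
  have h1 : Summable (fun m : ℕ => (-x) ^ m / ((m + 1).factorial * ((m : ℝ) + 1 + 0) ^ n)) :=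
    Pool.Agent.R352.T.EB_summable le_rfl n x
  have h2 : EA 0 n x = x * EB 0 n x := Pool.Agent.R352.T.EA_eq n x
  rw [h2, hG]
  congr 1
  rw [EB, h1.tsum_eq_zero_add]
  have h3 : EA 1 (n + 1) x = -∑' m : ℕ, (-x) ^ (m + 1) / ((m + 1 + 1).factorial * (((m + 1 : ℕ) : ℝ) + 1 + 0) ^ n) := by
    rw [EA, ← tsum_neg]
    refine tsum_congr fun m => ?_
    have h4 : ((m + 1 + 1).factorial : ℝ) = ((m : ℝ) + 1 + 1) * (m + 1).factorial := by
      rw [Nat.factorial_succ (m + 1)]
      push_cast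
      ring
    have h5 : ((m + 1).factorial : ℝ) ≠ 0 := by positivity
    have h6 : ((m : ℝ) + 1 + 1) ≠ 0 := by positivity
    rw [h4]
    push_cast
    rw [add_zero, pow_succ ((m : ℝ) + 1 + 1)]
    field_simp
  rw [h3]
  simp

end Pool.Agent.V7H31.IG
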