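import Pool.Agent.V7H31.IG.Inc
import Pool.Agent.V7H31.IG.Gam

/-!
# Algebraic independence of the logarithmic derivatives of the incomplete gamma function
-/

set_option autoImplicit false

open Filter Topology Set MeasureTheory

namespace Pool.Agent.V7H31.IG

open Pool.Agent.R352.T (EA EA_alg_Q PI)
open Pool.Agent.R352.E (clF subset_clF clF_mono clF_le of_pow indep_of_span exp_rat_mem rat_mem card_le trdeg_ge count_gen)

/-- the logarithmic derivatives of the incomplete gamma function -/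
noncomputable def ka (k : ℕ) (a x : ℝ) : ℝ := iteratedDeriv k (llg x) a

lemma mem_of_ka {a x : ℝ} (ha : 0 < a) (hx : 0 < x) {T : Set ℝ} (h0 : hG x 0 a ∈ clF T) {J : ℕ}
    (h1 : 1 ≤ J → hG x 1 a ∈ clF T) (hk : ∀ k, 2 ≤ k → k ≤ J → ka k a x ∈ clF T) : ∀ n ≤ J, hG x n a ∈ clF T := by
  have hneg : ∀ n : ℕ, (-1 : ℝ) ^ n ∈ clF T := fun n => (clF T).pow_mem ((clF T).neg_mem (clF T).one_mem) n
  have hdG : ∀ n : ℕ, dG x n a ∈ clF T ↔ hG x n a ∈ clF T := by
    intro n
    constructor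
    · intro h
      have h2 : hG x n a = dG x n a / ((-1) ^ n * n.factorial) := by
        rw [dG]
        have : ((-1 : ℝ)) ^ n ≠ 0 := pow_ne_zero _ (by norm_num)
        have : (n.factorial : ℝ) ≠ 0 := by positivity
        field_simp
      rw [h2]
      exact (clF T).div_mem h ((clF T).mul_mem (hneg n) (natCast_mem (clF T) _))
    · intro h
      rw [dG]
      exact (clF T).mul_mem ((clF T).mul_mem (hneg n) (natCast_mem (clF T) _)) h
  have rel := fun n : ℕ => log_rel (fun s hs => hG_smooth x s hs) (fun s hs => hG_pos hs hx) n ha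
  simp only [hG_iter x _ ha] at rel
  have hf : ∀ j, 1 ≤ j → j ≤ J → iteratedDeriv j (fun s => Real.log (hG x 0 s)) a ∈ clF T := by
    intro j hj hj'
    rcases Nat.lt_or_ge 1 j with h | h
    · rw [← llg_iter hx h ha]
      exact hk j h hj'
    · have hj1 : j = 1 := by omega
      subst hj1
      have h2 := rel 0
      simp only [zero_add, Finset.range_one, Finset.sum_singleton, Nat.choose_self, Nat.cast_one, one_mul, Nat.sub_self] at h2
      have h3 : dG x 0 a ≠ 0 := by
        rw [dG_zero]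
        exact (hG_pos ha hx).ne'
      have h4 : iteratedDeriv 1 (fun s => Real.log (hG x 0 s)) a = dG x 1 a / dG x 0 a := by
        rw [h2, mul_div_cancel_left₀ _ h3]
      rw [h4]
      exact (clF T).div_mem ((hdG 1).2 (h1 hj')) ((hdG 0).2 h0)
  have main : ∀ n ≤ J, dG x n a ∈ clF T := by
    intro n
    induction n using Nat.strong_induction_on with
    | _ n ih =>
      intro hn
      cases n with
      | zero => exact (hdG 0).2 h0
      | succ n =>
        rw [rel n]
        refine (clF T).sum_mem fun i hi => ?_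
        have hi' := Finset.mem_range.1 hi
        exact (clF T).mul_mem ((clF T).mul_mem (natCast_mem (clF T) _) (ih i hi' (by omega)))
          (hf _ (by omega) (by omega))
  exact fun n hn => (hdG n).1 (main n hn)

/-- the residue: `1` goes to `0` -/
def res (a : ℚ) : ℚ := if a = 1 then 0 else a

/-- the spanning family -/
noncomputable def W (l : ℕ) (a x : ℚ) : ℝ :=
  if a = 1 then (if l = 0 then hG x 1 a else ka (l + 1) a x)
  else (if l = 0 then hG x 0 a else if l = 1 then hG x 1 a else ka l a x)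

lemma span_mem {J : ℕ} {a x : ℚ} (ha : 0 < a) (hx : 0 < x) {T : Set ℝ} (he : Real.exp 1 ∈ clF T)
    (hW : ∀ l < J, W l a x ∈ clF T) : ∀ l < J, EA (res a) (l + 1) x ∈ clF T := by
  have hx' : (0 : ℝ) < x := by exact_mod_cast hx
  have ha' : (0 : ℝ) < a := by exact_mod_cast ha
  intro l hl
  by_cases h1 : a = 1
  · have hW0 := hW 0 (by omega)
    rw [W, if_pos h1, if_pos rfl] at hW0
    have h0 : hG x 0 a ∈ clF T := by
      have h2 := EA_one 0 (x : ℝ) hx'
      have h3 : hG x 0 a = EA 0 0 x / x := by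
        rw [← h2, h1]
        push_cast
        field_simp
      rw [h3, Pool.Agent.R352.T.EA_zero_left]
      have h4 := exp_rat_mem he (-x)
      push_cast at h4
      exact (clF T).div_mem ((clF T).sub_mem (clF T).one_mem h4) (rat_mem T x)
    have h5 := mem_of_ka ha' hx' h0 (J := J) (fun _ => hW0) (fun k hk hk' => by
      have h6 := hW (k - 1) (by omega)
      rw [W, if_pos h1, if_neg (by omega), Nat.sub_add_cancel (by omega)] at h6
      exact h6) (l + 1) (by omega)
    rw [res, if_pos h1]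
    have h7 := EA_one (l + 1) (x : ℝ) hx'
    rw [h1] at h5
    push_cast at h5 ⊢
    rw [← h7]
    exact (clF T).mul_mem (rat_mem T x) h5
  · have hW0 := hW 0 (by omega)
    rw [W, if_neg h1, if_pos rfl] at hW0
    have h5 := mem_of_ka ha' hx' hW0 (J := J - 1) (fun h => by
      have h6 := hW 1 (by omega)
      rw [W, if_neg h1, if_neg one_ne_zero, if_pos rfl] at h6
      exact h6) (fun k hk hk' => by
      have h6 := hW k (by omega)
      rw [W, if_neg h1, if_neg (by omega), if_neg (by omega)] at h6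
      exact h6) l (by omega)
    rw [res, if_neg h1]
    have h7 : EA a (l + 1) x = 1 / (a : ℝ) ^ (l + 1) - hG x l a := by rw [hG]; ring
    rw [h7]
    exact (clF T).sub_mem ((clF T).div_mem (clF T).one_mem ((clF T).pow_mem (rat_mem T a) _)) h5

/-- the set of parameters -/
abbrev PP : Type := {p : ℚ × ℚ // 0 < p.1 ∧ p.1 ≤ 1 ∧ 0 < p.2}

lemma res_prop {a : ℚ} (h0 : 0 < a) (h1 : a ≤ 1) : 0 ≤ res a ∧ res a < 1 := by
  rw [res]
  split_ifs with h
  · exact ⟨le_rfl, one_pos⟩
  · exact ⟨h0.le, lt_of_le_of_ne h1 h⟩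

lemma res_inj {a b : ℚ} (ha : 0 < a) (hb : 0 < b) (h : res a = res b) : a = b := by
  rw [res, res] at h
  split_ifs at h with h1 h2 h3
  · rw [h1, h2]
  · exact absurd h.symm hb.ne'
  · exact absurd h ha.ne'
  · exact h

lemma AI_fin (J : ℕ) {ι : Type*} [Fintype ι] (p : ι → PP) (hinj : Function.Injective p) :
    AlgebraicIndependent ℚ (fun o : Option (Fin J × ι) => o.elim (Real.exp 1) (fun i => W i.1 (p i.2).1.1 (p i.2).1.2)) := by
  let f : Option (Fin J × ι) → Option PI := Option.map fun i => ⟨(i.1, res (p i.2).1.1, (p i.2).1.2),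
    (res_prop (p i.2).2.1 (p i.2).2.2.1).1, (res_prop (p i.2).2.1 (p i.2).2.2.1).2, (p i.2).2.2.2⟩
  have hf : Function.Injective f := by
    refine Option.map_injective ?_
    rintro ⟨i, j⟩ ⟨i', j'⟩ h
    simp only [Subtype.mk.injEq, Prod.mk.injEq] at h
    have h1 : p j = p j' := Subtype.ext (Prod.ext (res_inj (p j).2.1 (p j').2.1 h.2.1) h.2.2)
    exact Prod.ext (Fin.ext h.1) (hinj h1)
  refine indep_of_span (EA_alg_Q.comp f hf) (fun o => ?_) le_rfl
  have he : Real.exp 1 ∈ clF (range fun o : Option (Fin J × ι) =>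
      o.elim (Real.exp 1) (fun i => W i.1 (p i.2).1.1 (p i.2).1.2)) := subset_clF _ ⟨none, rfl⟩
  cases o with
  | none => exact he
  | some i =>
    exact span_mem (p i.2).2.1 (p i.2).2.2.2 he (J := J) (fun l hl => subset_clF _ ⟨some (⟨l, hl⟩, i.2), rfl⟩)
      i.1 i.1.2

/-- the index set: `(k, a, x)` -/
abbrev KI : Type := {p : ℕ × ℚ × ℚ // 2 ≤ p.1 ∧ 0 < p.2.1 ∧ p.2.1 ≤ 1 ∧ 0 < p.2.2}

/-- the place of `(k, a, x)` in the spanning family -/
def pl (k : ℕ) (a : ℚ) : ℕ := if a = 1 then k - 1 else k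

lemma W_pl {k : ℕ} (hk : 2 ≤ k) (a x : ℚ) : W (pl k a) a x = ka k a x := by
  rw [W, pl]
  split_ifs with h1 h2
  · omega
  · rw [Nat.sub_add_cancel (by omega)]
  · omega
  · omega
  · rfl

lemma pl_le (k : ℕ) (a : ℚ) : pl k a ≤ k := by
  rw [pl]; split_ifs <;> omega

/-- **Algebraic independence** of `e` and the logarithmic derivatives of order `≥ 2` -/
theorem AI_ka : AlgebraicIndependent ℚ (fun o : Option KI =>
    o.elim (Real.exp 1) (fun p => ka p.1.1 p.1.2.1 p.1.2.2)) := by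
  classical
  refine algebraicIndependent_of_finite_type fun t ht => ?_
  let s : Finset (ℕ × ℚ × ℚ) := ht.toFinset.biUnion fun o => o.elim ∅ (fun p => {p.1})
  have hs : ∀ p : KI, some p ∈ t → p.1 ∈ s := by
    intro p hp
    refine Finset.mem_biUnion.2 ⟨some p, ht.mem_toFinset.2 hp, ?_⟩
    simp
  let J : ℕ := s.sup Prod.fst + 1
  let Y : Finset (ℚ × ℚ) := (s.image Prod.snd).filter (fun y => 0 < y.1 ∧ y.1 ≤ 1 ∧ 0 < y.2)
  have hJ : ∀ p : KI, some p ∈ t → pl p.1.1 p.1.2.1 < J := fun p hp =>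
    Nat.lt_succ_of_le ((pl_le _ _).trans (Finset.le_sup (f := Prod.fst) (hs p hp)))
  have hY : ∀ p : KI, some p ∈ t → p.1.2 ∈ Y := fun p hp =>
    Finset.mem_filter.2 ⟨Finset.mem_image_of_mem _ (hs p hp), p.2.2⟩
  have h := AI_fin J (ι := Y) (fun y => ⟨(y : ℚ × ℚ), (Finset.mem_filter.1 y.2).2⟩) (fun y y' hy => by
    simp only [Subtype.mk.injEq] at hy
    exact Subtype.ext hy)
  let f : t → Option (Fin J × Y) := fun o =>
    match o with
    | ⟨none, _⟩ => none
    | ⟨some p, hp⟩ => some (⟨pl p.1.1 p.1.2.1, hJ p hp⟩, ⟨p.1.2, hY p hp⟩)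
  have hf : Function.Injective f := by
    rintro ⟨o, ho⟩ ⟨o', ho'⟩ hoo
    cases o with
    | none =>
      cases o' with
      | none => rfl
      | some p' => exact absurd hoo (by simp [f])
    | some p =>
      cases o' with
      | none => exact absurd hoo (by simp [f])
      | some p' =>
        simp only [f, Option.some.injEq, Prod.mk.injEq, Fin.mk.injEq, Subtype.mk.injEq] at hoo
        have h1 := p.2.1
        have h2 := p'.2.1
        have h3 : p.1.1 = p'.1.1 := by
          have h4 := hoo.1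
          rw [hoo.2, pl, pl] at h4
          split_ifs at h4 <;> omega
        have : p = p' := Subtype.ext (Prod.ext h3 hoo.2)
        subst this
        rfl
  have h2 := h.comp f hf
  convert h2 using 1
  ext ⟨o, ho⟩
  cases o with
  | none => rfl
  | some p =>
    simp only [Option.elim, Function.comp_apply, f]
    rw [W_pl p.2.1]

/-- logarithmic derivatives of the regularised incomplete gamma function -/
noncomputable def La (k : ℕ) (a x : ℝ) : ℝ := iteratedDeriv k (fun s => Real.log (lg s x / Real.Gamma s)) a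

lemma La_eq {k : ℕ} (hk : 2 ≤ k) {a x : ℝ} (ha : 0 < a) (hx : 0 < x) :
    La k a x = ka k a x - (-1) ^ k * (k - 1).factorial * hz k a := by
  have h1 : Set.EqOn (fun s => Real.log (lg s x / Real.Gamma s)) (llg x - fun s => Real.log (Real.Gamma s)) (Ioi 0) := by
    intro t ht
    have ht' : (0 : ℝ) < t := ht
    simp only [Pi.sub_apply, llg]
    rw [Real.log_div (lg_pos ht' hx).ne' (Real.Gamma_pos_of_pos ht').ne']
  rw [La, h1.iteratedDeriv_of_isOpen isOpen_Ioi k ha, iteratedDeriv_sub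
    ((llg_smooth hx a ha).of_le (by exact_mod_cast le_top)) ((logGamma_smooth a ha).of_le (by exact_mod_cast le_top)),
    logGamma_iter hk ha]
  rfl

lemma ka_mem {k : ℕ} (hk : 2 ≤ k) {a x : ℝ} (ha : 0 < a) (hx : 0 < x) {T : Set ℝ} (h1 : hz k a ∈ clF T)
    (h2 : La k a x ∈ clF T) : ka k a x ∈ clF T := by
  have h3 : ka k a x = La k a x + (-1) ^ k * (k - 1).factorial * hz k a := by rw [La_eq hk ha hx]; ring
  rw [h3]
  exact (clF T).add_mem h2 ((clF T).mul_mem ((clF T).mul_mem ((clF T).pow_mem ((clF T).neg_mem (clF T).one_mem) _)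
    (natCast_mem (clF T) _)) h1)

/-- the admissible parameters -/
def Adm (p : ℕ × ℚ × ℚ) : Prop := 2 ≤ p.1 ∧ 0 < p.2.1 ∧ p.2.1 ≤ 1 ∧ 0 < p.2.2

lemma Adm.ka_mem {p : ℕ × ℚ × ℚ} (hp : Adm p) {T : Set ℝ} (h1 : hz p.1 p.2.1 ∈ clF T)
    (h2 : La p.1 p.2.1 p.2.2 ∈ clF T) : ka p.1 p.2.1 p.2.2 ∈ clF T :=
  IG.ka_mem hp.1 (by exact_mod_cast hp.2.1) (by exact_mod_cast hp.2.2.2) h1 h2

lemma AI_sub (S : Finset (ℕ × ℚ × ℚ)) (hS : ∀ p ∈ S, Adm p) :
    AlgebraicIndependent ℚ (fun o : Option S => o.elim (Real.exp 1) (fun p => ka p.1.1 p.1.2.1 p.1.2.2)) := by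
  let f : Option S → Option KI := Option.map fun p => ⟨p.1, hS p.1 p.2⟩
  have hf : Function.Injective f := by
    refine Option.map_injective ?_
    intro p p' h
    simp only [Subtype.mk.injEq] at h
    exact Subtype.ext h
  have h2 := AI_ka.comp f hf
  convert h2 using 1
  ext o
  cases o <;> simp [f]

/-- a lower bound for the transcendence degree -/
theorem trdegR {r : ℕ} (y : Fin r → ℝ) (S : Finset (ℕ × ℚ × ℚ))
    (hS : ∀ p ∈ S, Adm p ∧ hz p.1 p.2.1 ∈ clF ({Real.exp 1} ∪ range y)) :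
    ((S.card + 1 : ℕ) : Cardinal) ≤ Algebra.trdeg ℚ (IntermediateField.adjoin ℚ
      ({Real.exp 1} ∪ range y ∪ (fun p : ℕ × ℚ × ℚ => La p.1 p.2.1 p.2.2) '' (S : Set (ℕ × ℚ × ℚ)))) := by
  have h := AI_sub S (fun p hp => (hS p hp).1)
  have h2 := trdeg_ge h (A := {Real.exp 1} ∪ range y ∪ (fun p : ℕ × ℚ × ℚ => La p.1 p.2.1 p.2.2) ''
    (S : Set (ℕ × ℚ × ℚ))) ?_
  · refine le_trans (le_of_eq ?_) h2
    simp
  · intro o
    have he : Real.exp 1 ∈ clF ({Real.exp 1} ∪ range y ∪ (fun p : ℕ × ℚ × ℚ => La p.1 p.2.1 p.2.2) ''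
        (S : Set (ℕ × ℚ × ℚ))) :=
      subset_clF _ (Or.inl (Or.inl rfl))
    cases o with
    | none => exact he
    | some p =>
      exact (hS p.1 p.2).1.ka_mem (clF_mono subset_union_left (hS p.1 p.2).2) (subset_clF _ (Or.inr ⟨p.1, p.2, rfl⟩))

/-- counting -/
theorem countR {r : ℕ} (y : Fin r → ℝ) (t : Finset (Fin r ⊕ (ℕ × ℚ × ℚ)))
    (ht : ∀ i ∈ t, Sum.elim y (fun p => La p.1 p.2.1 p.2.2) i ∈ clF {Real.exp 1})
    (ht' : ∀ p : ℕ × ℚ × ℚ, Sum.inr p ∈ t → Adm p ∧ hz p.1 p.2.1 ∈ clF ({Real.exp 1} ∪ range y)) : t.card ≤ r := by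
  classical
  let S : Finset (ℕ × ℚ × ℚ) := t.biUnion fun i => Sum.elim (fun _ => ∅) (fun p => {p}) i
  have hSm : ∀ p : ℕ × ℚ × ℚ, Sum.inr p ∈ t → p ∈ S := fun p hp => Finset.mem_biUnion.2 ⟨_, hp, by simp⟩
  have hSm' : ∀ p ∈ S, Sum.inr p ∈ t := by
    intro p hp
    obtain ⟨i, hi, hxi⟩ := Finset.mem_biUnion.1 hp
    rcases i with i | q
    · simp at hxi
    · simp at hxi
      subst hxi
      exact hi
  have hAI := AI_sub S (fun p hp => (ht' p (hSm' p hp)).1)
  let emb : Fin r ⊕ S → Fin r ⊕ (ℕ × ℚ × ℚ) := Sum.map id Subtype.val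
  have hemb : Function.Injective emb := Function.Injective.sumMap Function.injective_id Subtype.val_injective
  let S' : Finset (Fin r ⊕ S) := t.preimage emb hemb.injOn
  have hS'card : S'.card = t.card := by
    rw [Finset.card_preimage, Finset.filter_true_of_mem]
    intro i hi
    rcases i with i | p
    · exact ⟨Sum.inl i, rfl⟩
    · exact ⟨Sum.inr ⟨p, hSm p hi⟩, rfl⟩
  have key := count_gen hAI (y := fun k => Sum.elim y (fun p : ℕ × ℚ × ℚ => La p.1 p.2.1 p.2.2) (emb k))
    (a := Real.exp 1) S' (fun k hk => ht _ (Finset.mem_preimage.1 hk)) ?_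
  · simp only [Fintype.card_option, Fintype.card_fin, Fintype.card_coe, Fintype.card_sum, hS'card] at key
    omega
  · intro o
    cases o with
    | none => exact subset_clF _ (Or.inl rfl)
    | some p =>
      refine (ht' p.1 (hSm' p.1 p.2)).1.ka_mem (clF_mono ?_ (ht' p.1 (hSm' p.1 p.2)).2)
        (subset_clF _ (Or.inr ⟨Sum.inr p, rfl⟩))
      refine union_subset_union_right _ ?_
      rintro _ ⟨i, rfl⟩
      exact ⟨Sum.inl i, rfl⟩

/-- if the Hurwitz zeta values are algebraic over `ℚ(e)`, the numbers are algebraically independent -/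
theorem AI_R (K : Set (ℕ × ℚ)) (hK : ∀ p ∈ K, 2 ≤ p.1 ∧ 0 < p.2 ∧ p.2 ≤ 1 ∧ hz p.1 p.2 ∈ clF {Real.exp 1}) :
    AlgebraicIndependent ℚ (fun o : Option {p : ℕ × ℚ × ℚ // (p.1, p.2.1) ∈ K ∧ 0 < p.2.2} =>
      o.elim (Real.exp 1) (fun p => La p.1.1 p.1.2.1 p.1.2.2)) := by
  classical
  refine algebraicIndependent_of_finite_type fun t ht => ?_
  let F : Set (Option {p : ℕ × ℚ × ℚ // (p.1, p.2.1) ∈ K ∧ 0 < p.2.2}) := insert none t
  have hF : F.Finite := ht.insert _
  have := hF.fintype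
  have hadm : ∀ p : {p : ℕ × ℚ × ℚ // (p.1, p.2.1) ∈ K ∧ 0 < p.2.2}, Adm p.1 := fun p =>
    ⟨(hK _ p.2.1).1, (hK _ p.2.1).2.1, (hK _ p.2.1).2.2.1, p.2.2⟩
  have key : AlgebraicIndependent ℚ (fun o : F => (o : Option {p : ℕ × ℚ × ℚ // (p.1, p.2.1) ∈ K ∧ 0 < p.2.2}).elim
      (Real.exp 1) (fun p => La p.1.1 p.1.2.1 p.1.2.2)) := by
    let f : F → Option KI := fun o =>
      (o : Option {p : ℕ × ℚ × ℚ // (p.1, p.2.1) ∈ K ∧ 0 < p.2.2}).map fun p =>
        (⟨p.1, (hadm p).1, (hadm p).2.1, (hadm p).2.2.1, (hadm p).2.2.2⟩ : KI)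
    have hf : Function.Injective f := by
      intro o o' hoo
      refine Subtype.ext (Option.map_injective ?_ hoo)
      intro a b hab
      simp only [Subtype.mk.injEq] at hab
      exact Subtype.ext hab
    refine indep_of_span (AI_ka.comp f hf) (fun o => ?_) le_rfl
    have he : Real.exp 1 ∈ clF (range fun o : F => (o : Option {p : ℕ × ℚ × ℚ // (p.1, p.2.1) ∈ K ∧ 0 < p.2.2}).elim
        (Real.exp 1) (fun p => La p.1.1 p.1.2.1 p.1.2.2)) := subset_clF _ ⟨⟨none, Or.inl rfl⟩, rfl⟩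
    obtain ⟨o, ho⟩ := o
    cases o with
    | none => exact he
    | some p =>
      exact (hadm p).ka_mem (clF_le (singleton_subset_iff.2 he) (hK _ p.2.1).2.2.2) (subset_clF _ ⟨⟨some p, ho⟩, rfl⟩)
  have h2 := key.comp (fun o : t => (⟨o.1, Or.inr o.2⟩ : F)) (by
    intro a b hab
    have := congrArg Subtype.val hab
    exact Subtype.ext this)
  exact h2

end Pool.Agent.V7H31.IG
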